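import Pool.Agent.Work.MP_584b0c_al.Cyc.Main

set_option autoImplicit false

open Matrix

namespace Pool.Agent.Results.MP_584b0c_al.CongruenceCyclic

open Pool.Agent.MP_584b0c_al.Cyc

/-- Let `n ≥ 3`, let `d` be an integer and `X` an integer `n × n` matrix with an integral cyclic
vector `v` (the vectors `X ^ k v` span `ℤ ^ n`). If `1 + d X` has determinant one, then it is a
commutator `A B A⁻¹ B⁻¹` with `A`, `B` in `GL_n(ℤ)`. -/
theorem result : ∀ n : ℕ, 3 ≤ n → ∀ (d : ℤ) (X : Matrix (Fin n) (Fin n) ℤ) (v : Fin n → ℤ),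
    Submodule.span ℤ (Set.range fun k : ℕ => (X ^ k) *ᵥ v) = ⊤ →
    (1 + d • X).det = 1 →
      ∃ A B : (Matrix (Fin n) (Fin n) ℤ)ˣ,
        ((A * B * A⁻¹ * B⁻¹ : (Matrix (Fin n) (Fin n) ℤ)ˣ) : Matrix (Fin n) (Fin n) ℤ)
          = 1 + d • X := by
  intro n hn d X v hv hdet
  rcases eq_or_ne d 0 with hd | hd
  · subst hd
    exact ⟨1, 1, by simp⟩
  obtain ⟨N, rfl⟩ : ∃ N, n = N + 1 := ⟨n - 1, by omega⟩
  have hN : ∃ m : ℕ, N = 2 * m ∨ N = 2 * m + 3 := by
    rcases Nat.even_or_odd N with h | h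
    · obtain ⟨m, hm⟩ := h; exact ⟨m, Or.inl (by omega)⟩
    · obtain ⟨m, hm⟩ := h; exact ⟨m - 1, Or.inr (by omega)⟩
  obtain ⟨m, hm⟩ := hN
  have hX : Submodule.span ℤ (Set.range fun k : ℕ => v ᵥ* (Xᵀ) ^ k) = ⊤ := by
    rw [← hv]
    congr 1
    ext w
    constructor
    · rintro ⟨k, rfl⟩
      exact ⟨k, by simp only [← Matrix.transpose_pow, Matrix.vecMul_transpose]⟩
    · rintro ⟨k, rfl⟩
      exact ⟨k, by simp only [← Matrix.transpose_pow, Matrix.vecMul_transpose]⟩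
  have hdet' : (1 + d • Xᵀ).det = 1 := by
    rw [← hdet, ← Matrix.det_transpose (1 + d • X), Matrix.transpose_add, Matrix.transpose_one,
      Matrix.transpose_smul]
  obtain ⟨A, A', B, B', hA, hB, h⟩ := covector hd hm Xᵀ v hX hdet'
  have hA2 : A' * A = 1 := mul_eq_one_comm.1 hA
  have hB2 : B' * B = 1 := mul_eq_one_comm.1 hB
  refine ⟨⟨B'ᵀ, Bᵀ, ?_, ?_⟩, ⟨A'ᵀ, Aᵀ, ?_, ?_⟩, ?_⟩
  · rw [← Matrix.transpose_mul, hB, Matrix.transpose_one]
  · rw [← Matrix.transpose_mul, hB2, Matrix.transpose_one]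
  · rw [← Matrix.transpose_mul, hA, Matrix.transpose_one]
  · rw [← Matrix.transpose_mul, hA2, Matrix.transpose_one]
  · show B'ᵀ * A'ᵀ * Bᵀ * Aᵀ = 1 + d • X
    have h2 := congrArg Matrix.transpose h
    rw [Matrix.transpose_mul, Matrix.transpose_mul, Matrix.transpose_mul, Matrix.transpose_add,
      Matrix.transpose_one, Matrix.transpose_smul, Matrix.transpose_transpose] at h2
    rw [← h2]
    simp only [mul_assoc]

end Pool.Agent.Results.MP_584b0c_al.CongruenceCyclic
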