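import Pool.Agent.Work.MP_584b0c_al.Cst.All

/-!
# MP_584b0c_al: integral commutators, all matrices far from the scalars

There is an absolute constant `r₀` such that for EVERY size `n` every integer matrix `C` of size `n`
and determinant `1`, for which `C - μ` has rank at least `r₀` modulo every prime `p` and for every
scalar `μ` in `F_p`, is a commutator `A B A⁻¹ B⁻¹` of two matrices invertible over the integers.
-/

namespace Pool.Agent.Results.MP_584b0c_al.ConstantCodimension

theorem result : ∃ r₀ : ℕ, ∀ (n : ℕ) (C : Matrix (Fin n) (Fin n) ℤ), C.det = 1 →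
    (∀ (p : ℕ) [Fact p.Prime] (μ : ZMod p),
      r₀ ≤ (C.map (Int.castRingHom (ZMod p)) - Matrix.scalar (Fin n) μ).rank) →
    ∃ A B : (Matrix (Fin n) (Fin n) ℤ)ˣ,
      ((A * B * A⁻¹ * B⁻¹ : (Matrix (Fin n) (Fin n) ℤ)ˣ) : Matrix (Fin n) (Fin n) ℤ) = C :=
  Pool.Agent.IntComm.Cst.target3

end Pool.Agent.Results.MP_584b0c_al.ConstantCodimension
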