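import Pool.Agent.Work.MP_584b0c_al.Q3.Main

/-!
# MP_584b0c_al: integral commutators of size three with all eigenvalues of modulus one

Every integer matrix of size three and determinant one all of whose complex eigenvalues have
modulus one (in particular every unipotent one, and every one of finite order) is a commutator
`A B A⁻¹ B⁻¹` of two matrices invertible over the integers.
-/

namespace Pool.Agent.Results.MP_584b0c_al.QuasiUnipotentThree

theorem result : ∀ C : Matrix (Fin 3) (Fin 3) ℤ, C.det = 1 →
    (∀ z : ℂ, (C.map (fun x : ℤ => (x : ℂ))).charpoly.IsRoot z → ‖z‖ = 1) →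
    ∃ A B : (Matrix (Fin 3) (Fin 3) ℤ)ˣ,
      ((A * B * A⁻¹ * B⁻¹ : (Matrix (Fin 3) (Fin 3) ℤ)ˣ) : Matrix (Fin 3) (Fin 3) ℤ) = C :=
  fun C hdet h => Pool.Agent.IntComm.Q3.main C hdet h

end Pool.Agent.Results.MP_584b0c_al.QuasiUnipotentThree
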