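import Pool.Agent.Work.MP_584b0c_al.Stab.All

/-!
# MP_584b0c_al: integral commutators, the stable answer

For every integer matrix `C` of determinant `1` the matrix `C ⊕ 1_j` is a commutator `A B A⁻¹ B⁻¹`
of two matrices invertible over the integers, for all sufficiently large `j`.
-/

namespace Pool.Agent.Results.MP_584b0c_al.StableCommutators

theorem result : ∀ (k : ℕ) (C : Matrix (Fin k) (Fin k) ℤ), C.det = 1 →
    ∃ j₀ : ℕ, ∀ j, j₀ ≤ j → ∃ A B : (Matrix (Fin k ⊕ Fin j) (Fin k ⊕ Fin j) ℤ)ˣ,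
      ((A * B * A⁻¹ * B⁻¹ : (Matrix (Fin k ⊕ Fin j) (Fin k ⊕ Fin j) ℤ)ˣ) :
        Matrix (Fin k ⊕ Fin j) (Fin k ⊕ Fin j) ℤ) = Matrix.fromBlocks C 0 0 1 :=
  Pool.Agent.StabComm.stable_commutators

end Pool.Agent.Results.MP_584b0c_al.StableCommutators
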